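import Mathlib

/-!
# `m_1 π + m_2 e` is not an integer for small integers `m_1`, `m_2`, not both zero
-/

set_option autoImplicit false

namespace Pool.Agent.TH426.Pw

/-- fractional part of `m_1 π + m_2 e`, `i = m_1 + 100`, `j = m_2 + 100`, in units of `10 ^ (-10)` -/
def vv (i j : ℕ) : ℕ := (i * 31415926535 + j * 27182818283 + 125518200) % 10000000000

/-- the check for one pair -/
def ok (i j : ℕ) : Bool :=
  (Nat.beq i 100 && Nat.beq j 100) || (Nat.ble 401 (vv i j) && Nat.ble (vv i j) 9999999599)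

/-- bounded conjunction -/
def allb (f : ℕ → Bool) : ℕ → Bool
  | 0 => true
  | n + 1 => f n && allb f n

theorem allb_spec (f : ℕ → Bool) : ∀ n, allb f n = true → ∀ i < n, f i = true := by
  intro n
  induction n with
  | zero => intro _ i hi; omega
  | succ n ih =>
    intro h i hi
    rw [allb, Bool.and_eq_true] at h
    rcases Nat.lt_succ_iff_lt_or_eq.1 hi with h1 | h1
    · exact ih h.2 i h1
    · rw [h1]; exact h.1

theorem chk0 : allb (fun i => allb (fun j => ok i j) 201) 201 = true := by decide +kernel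

theorem chk (i j : ℕ) (hi : i < 201) (hj : j < 201) : (i = 100 ∧ j = 100) ∨
    (401 ≤ (i * 31415926535 + j * 27182818283 + 125518200) % 10000000000 ∧
      (i * 31415926535 + j * 27182818283 + 125518200) % 10000000000 ≤ 9999999599) := by
  have h := allb_spec _ _ (allb_spec _ _ chk0 i hi) j hj
  simp only [ok, Bool.or_eq_true, Bool.and_eq_true, Nat.beq_eq, Nat.ble_eq, vv] at h
  exact h

theorem pi_e (m1 m2 z : ℤ) (h1 : |m1| ≤ 100) (h2 : |m2| ≤ 100)
    (h : (m1 : ℝ) * Real.pi + (m2 : ℝ) * Real.exp 1 = z) : m1 = 0 ∧ m2 = 0 := by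
  rw [abs_le] at h1 h2
  have hp1 := Real.pi_gt_d20
  have hp2 := Real.pi_lt_d20
  have he1 := Real.exp_one_gt_d9
  have he2 := Real.exp_one_lt_d9
  have hm1 : |(m1 : ℝ)| ≤ 100 := by
    rw [abs_le]
    constructor
    · exact_mod_cast h1.1
    · exact_mod_cast h1.2
  have hm2 : |(m2 : ℝ)| ≤ 100 := by
    rw [abs_le]
    constructor
    · exact_mod_cast h2.1
    · exact_mod_cast h2.2
  set δ1 : ℝ := 10000000000 * Real.pi - 31415926535 with hδ1
  set δ2 : ℝ := 10000000000 * Real.exp 1 - 27182818283 with hδ2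
  have a1 : |δ1| ≤ 1 := by
    rw [abs_le]
    constructor <;> linarith
  have a2 : |δ2| < 3 := by
    rw [abs_lt]
    constructor <;> linarith
  have hx : (((m1 * 31415926535 + m2 * 27182818283 - z * 10000000000 : ℤ) : ℝ)) = -(m1 * δ1) - m2 * δ2 := by
    push_cast
    rw [← h, hδ1, hδ2]
    ring
  have hb : |(((m1 * 31415926535 + m2 * 27182818283 - z * 10000000000 : ℤ) : ℝ))| ≤ 400 := by
    rw [hx]
    have e1 : |(m1 : ℝ) * δ1| ≤ 100 * 1 := by
      rw [abs_mul]
      exact mul_le_mul hm1 a1 (abs_nonneg _) (by norm_num)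
    have e2 : |(m2 : ℝ) * δ2| ≤ 100 * 3 := by
      rw [abs_mul]
      exact mul_le_mul hm2 a2.le (abs_nonneg _) (by norm_num)
    rw [abs_le] at e1 e2 ⊢
    constructor <;> linarith [e1.1, e1.2, e2.1, e2.2]
  have hb' : |m1 * 31415926535 + m2 * 27182818283 - z * 10000000000| ≤ 400 := by
    exact_mod_cast hb
  rw [abs_le] at hb'
  obtain ⟨i, hi⟩ := Int.eq_ofNat_of_zero_le (show 0 ≤ m1 + 100 by omega)
  obtain ⟨j, hj⟩ := Int.eq_ofNat_of_zero_le (show 0 ≤ m2 + 100 by omega)
  have hc := chk i j (by omega) (by omega)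
  rcases hc with hc | hc
  · omega
  exfalso
  have hd := Nat.div_add_mod (i * 31415926535 + j * 27182818283 + 125518200) 10000000000
  generalize (i * 31415926535 + j * 27182818283 + 125518200) % 10000000000 = v at hc hd
  generalize (i * 31415926535 + j * 27182818283 + 125518200) / 10000000000 = w at hd
  generalize hX : m1 * 31415926535 + m2 * 27182818283 - z * 10000000000 = X at hb'
  have hk : (v : ℤ) = X + 10000000000 * (z + 586 - w) := by
    have hd' : (10000000000 : ℤ) * w + v = i * 31415926535 + j * 27182818283 + 125518200 := by exact_mod_cast hd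
    have hi' : m1 = (i : ℤ) - 100 := by omega
    have hj' : m2 = (j : ℤ) - 100 := by omega
    rw [← hX, hi', hj']
    linarith
  have key : ∀ v X k : ℤ, -400 ≤ X → X ≤ 400 → 401 ≤ v → v ≤ 9999999599 → v = X + 10000000000 * k → False := by
    intro v X k _ _ _ _ _
    omega
  exact key v X _ hb'.1 hb'.2 (by exact_mod_cast hc.1) (by exact_mod_cast hc.2) hk

end Pool.Agent.TH426.Pw
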