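import Mathlib

/-!
# Powers with distinct real exponents are linearly independent
-/

set_option autoImplicit false

open Set Polynomial Filter Topology

namespace Pool.Agent.TH426.Pw

/-- the function `t ^ μ`, `t > 0` -/
noncomputable def pf (μ t : ℝ) : ℝ := Real.exp (μ * Real.log t)

theorem pf_an (μ : ℝ) {t : ℝ} (ht : 0 < t) : AnalyticAt ℝ (pf μ) t := by
  unfold pf
  exact (analyticAt_const.mul (analyticAt_log ht)).rexp

theorem pf_pos (μ t : ℝ) : 0 < pf μ t := Real.exp_pos _

theorem pf_eq (μ : ℝ) {t : ℝ} (ht : 0 < t) : pf μ t = t ^ μ := by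
  rw [pf, Real.rpow_def_of_pos ht, mul_comm]

theorem pf_add (μ ν t : ℝ) : pf (μ + ν) t = pf μ t * pf ν t := by
  rw [pf, pf, pf, ← Real.exp_add]
  congr 1
  ring

theorem pf_nat (n : ℕ) {t : ℝ} (ht : 0 < t) : pf n t = t ^ n := by
  rw [pf_eq _ ht, Real.rpow_natCast]

theorem pf_lim (μ : ℝ) (hμ : μ < 0) : Tendsto (pf μ) atTop (𝓝 0) := by
  unfold pf
  exact Real.tendsto_exp_atBot.comp (Real.tendsto_log_atTop.const_mul_atTop_of_neg hμ)

/-- linear independence of `t ^ μ_i`, distinct `μ_i` -/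
theorem pow_ind {κ : Type} [Fintype κ] (μ : κ → ℝ) (hμ : Function.Injective μ) (c : κ → ℝ) (a b : ℝ) (ha : 0 < a)
    (hab : a < b) (h : ∀ t ∈ Icc a b, ∑ i, c i * pf (μ i) t = 0) : c = 0 := by
  classical
  have h1 : AnalyticOnNhd ℝ (fun t => ∑ i, c i * pf (μ i) t) (Ioi 0) := by
    intro t ht
    exact Finset.analyticAt_fun_sum _ fun i _ => analyticAt_const.mul (pf_an _ ht)
  have h2 : (fun t => ∑ i, c i * pf (μ i) t) =ᶠ[𝓝 ((a + b) / 2)] 0 := by
    filter_upwards [Icc_mem_nhds (show a < (a + b) / 2 by linarith) (show (a + b) / 2 < b by linarith)] with t ht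
    exact h t ht
  have h3 := h1.eqOn_zero_of_preconnected_of_eventuallyEq_zero isPreconnected_Ioi
    (show (a + b) / 2 ∈ Ioi 0 by rw [mem_Ioi]; linarith) h2
  by_contra hc
  obtain ⟨i1, hi1⟩ : ∃ i, c i ≠ 0 := by
    by_contra hcon
    push Not at hcon
    exact hc (funext hcon)
  obtain ⟨i0, hi0, hmax⟩ := Finset.exists_max_image (Finset.univ.filter fun i => c i ≠ 0) μ ⟨i1, by simp [hi1]⟩
  rw [Finset.mem_filter] at hi0
  have hterm : ∀ i ∈ Finset.univ.erase i0, Tendsto (fun t => c i * pf (μ i - μ i0) t) atTop (𝓝 0) := by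
    intro i hi
    rcases eq_or_ne (c i) 0 with h0 | h0
    · simp [h0]
    have hlt : μ i < μ i0 := lt_of_le_of_ne (hmax i (by simp [h0])) (fun hh => (Finset.ne_of_mem_erase hi) (hμ hh))
    have := (pf_lim (μ i - μ i0) (by linarith)).const_mul (c i)
    rwa [mul_zero] at this
  have hsum := tendsto_finsetSum _ hterm
  rw [Finset.sum_const_zero] at hsum
  have hlim : Tendsto (fun _ : ℝ => c i0) atTop (𝓝 0) := by
    have h2 := hsum.neg
    rw [neg_zero] at h2
    refine h2.congr' ?_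
    filter_upwards [eventually_gt_atTop 0] with t ht
    have h4 := h3 ht
    simp only [Pi.zero_apply] at h4
    have h5 : ∑ i, c i * pf (μ i - μ i0) t = 0 := by
      have : ∑ i, c i * pf (μ i - μ i0) t = (∑ i, c i * pf (μ i) t) * pf (-μ i0) t := by
        rw [Finset.sum_mul]
        refine Finset.sum_congr rfl fun i _ => ?_
        rw [sub_eq_add_neg, pf_add]
        ring
      rw [this, h4, zero_mul]
    rw [← Finset.add_sum_erase _ _ (Finset.mem_univ i0)] at h5
    have h6 : pf (μ i0 - μ i0) t = 1 := by simp [pf]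
    rw [h6, mul_one] at h5
    linarith
  exact hi0.2 (tendsto_nhds_unique tendsto_const_nhds hlim)

/-- linear independence of `t ^ ν_l` over the polynomials, if no two `ν_l` differ by an integer -/
theorem pow_rind {ι : Type} [Fintype ι] (ν : ι → ℝ) (hν : ∀ l l' (z : ℤ), ν l - ν l' = z → l = l')
    (a b : ℝ) (ha : 0 < a) (hab : a < b) (p : ι → ℝ[X])
    (h : ∀ t ∈ Icc a b, ∑ l, (p l).eval t * pf (ν l) t = 0) : p = 0 := by
  classical
  set D := ∑ l, (p l).natDegree with hD
  have hle : ∀ l, (p l).natDegree ≤ D := fun l => Finset.single_le_sum (f := fun l => (p l).natDegree)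
    (fun _ _ => Nat.zero_le _) (Finset.mem_univ l)
  have h1 := pow_ind (fun x : ι × Fin (D + 1) => ν x.1 + (x.2 : ℕ)) (by
    rintro ⟨l, m⟩ ⟨l', m'⟩ hh
    simp only at hh
    have h2 := hν l l' ((m' : ℕ) - (m : ℕ)) (by push_cast; linarith)
    subst h2
    have h3 : ((m : ℕ) : ℝ) = (m' : ℕ) := by linarith
    exact Prod.ext rfl (Fin.ext (by exact_mod_cast h3))) (fun x => (p x.1).coeff x.2) a b ha hab (by
    intro t ht
    have ht0 : 0 < t := by linarith [ht.1]
    rw [Fintype.sum_prod_type, ← h t ht]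
    refine Finset.sum_congr rfl fun l _ => ?_
    rw [eval_eq_sum_range' (Nat.lt_succ_of_le (hle l)), ← Fin.sum_univ_eq_sum_range
      (fun j => (p l).coeff j * t ^ j), Finset.sum_mul]
    refine Finset.sum_congr rfl fun j _ => ?_
    rw [pf_add, pf_nat _ ht0]
    ring)
  funext l
  ext j
  rcases Nat.lt_or_ge j (D + 1) with hj | hj
  · exact congrFun h1 (l, ⟨j, hj⟩)
  · rw [coeff_eq_zero_of_natDegree_lt (lt_of_le_of_lt (hle l) hj)]
    simp

end Pool.Agent.TH426.Pw
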