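import Pool.Agent.TH426.Pw.Main

/-!
# Independence of `(log t) ^ c t ^ ν` over the polynomials
-/

set_option autoImplicit false

open Set Polynomial Filter Topology

namespace Pool.Agent.TH426.Pw

open Pool.Agent.TH818.AR Pool.Agent.TH818.AP

/-- exponential polynomials with distinct exponents -/
theorem exp_ind {κ : Type} [Fintype κ] (μ : κ → ℝ) (hμ : Function.Injective μ) (Q : κ → ℝ[X]) (x0 x1 : ℝ)
    (hx : x0 < x1) (h : ∀ x ∈ Icc x0 x1, ∑ i, (Q i).eval x * Real.exp (μ i * x) = 0) : Q = 0 := by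
  classical
  have h1 : AnalyticOnNhd ℝ (fun x => ∑ i, (Q i).eval x * Real.exp (μ i * x)) univ := by
    intro t ht
    refine Finset.analyticAt_fun_sum _ fun i _ => ?_
    exact (AnalyticOnNhd.eval_polynomial (Q i) t (mem_univ _)).mul (analyticAt_const.mul analyticAt_id).rexp
  have h2 : (fun x => ∑ i, (Q i).eval x * Real.exp (μ i * x)) =ᶠ[𝓝 ((x0 + x1) / 2)] 0 := by
    filter_upwards [Icc_mem_nhds (show x0 < (x0 + x1) / 2 by linarith) (show (x0 + x1) / 2 < x1 by linarith)] with t ht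
    exact h t ht
  have h3 := h1.eqOn_zero_of_preconnected_of_eventuallyEq_zero isPreconnected_univ (mem_univ ((x0 + x1) / 2)) h2
  by_contra hc
  obtain ⟨i1, hi1⟩ : ∃ i, Q i ≠ 0 := by
    by_contra hcon
    push Not at hcon
    exact hc (funext hcon)
  obtain ⟨i0, hi0, hmax⟩ := Finset.exists_max_image (Finset.univ.filter fun i => Q i ≠ 0) μ ⟨i1, by simp [hi1]⟩
  rw [Finset.mem_filter] at hi0
  have hterm : ∀ i ∈ Finset.univ.erase i0,
      Tendsto (fun x => (Q i).eval x * Real.exp ((μ i - μ i0) * x)) atTop (𝓝 0) := by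
    intro i hi
    rcases eq_or_ne (Q i) 0 with h0 | h0
    · simp [h0]
    have hlt : μ i < μ i0 := lt_of_le_of_ne (hmax i (by simp [h0])) (fun hh => (Finset.ne_of_mem_erase hi) (hμ hh))
    have hc : 0 < μ i0 - μ i := by linarith
    have h1 := (Polynomial.tendsto_div_exp_atTop ((Q i).comp (C (μ i0 - μ i)⁻¹ * X))).comp
      (tendsto_id.const_mul_atTop hc)
    refine h1.congr fun t => ?_
    simp only [Function.comp, id, eval_comp, eval_mul, eval_C, eval_X, div_eq_mul_inv, ← Real.exp_neg]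
    rw [← mul_assoc, inv_mul_cancel₀ hc.ne', one_mul]
    congr 2
    ring
  have hsum := tendsto_finsetSum _ hterm
  rw [Finset.sum_const_zero] at hsum
  have hlim : Tendsto (fun x : ℝ => (Q i0).eval x) atTop (𝓝 0) := by
    have h2 := hsum.neg
    rw [neg_zero] at h2
    refine h2.congr fun t => ?_
    have h4 := h3 (mem_univ t)
    simp only [Pi.zero_apply] at h4
    have h5 : ∑ i, (Q i).eval t * Real.exp ((μ i - μ i0) * t) = 0 := by
      have : ∑ i, (Q i).eval t * Real.exp ((μ i - μ i0) * t) =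
          (∑ i, (Q i).eval t * Real.exp (μ i * t)) * Real.exp (-(μ i0 * t)) := by
        rw [Finset.sum_mul]
        refine Finset.sum_congr rfl fun i _ => ?_
        rw [mul_assoc, ← Real.exp_add]
        congr 2
        ring
      rw [this, h4, zero_mul]
    rw [← Finset.add_sum_erase _ _ (Finset.mem_univ i0), sub_self, zero_mul, Real.exp_zero, mul_one] at h5
    linarith
  have h4 := (Polynomial.tendsto_nhds_iff _).1 hlim
  exact hi0.2 (leadingCoeff_eq_zero.1 h4.1)

section

variable {k d : ℕ}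

/-- the functions `(log t) ^ c t ^ (∑ e_i θ_i)` -/
noncomputable def gl (θ : Fin k → ℝ) (e : Fin (d + 1) × (Fin k → Fin (d + 1))) (t : ℝ) : ℝ :=
  Real.log t ^ (e.1 : ℕ) * pf (ex θ e.2) t

theorem gl_an (θ : Fin k → ℝ) (e : Fin (d + 1) × (Fin k → Fin (d + 1))) {t : ℝ} (ht : 0 < t) :
    AnalyticAt ℝ (gl θ e) t := by
  unfold gl
  exact ((analyticAt_log ht).pow _).mul (pf_an _ ht)

theorem gl_ind (θ : Fin k → ℝ)
    (hθ : ∀ (m : Fin k → ℤ) (z : ℤ), (∀ i, |m i| ≤ d) → ∑ i, (m i : ℝ) * θ i = z → m = 0)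
    (a b : ℝ) (ha : 0 < a) (hab : a < b) : RIndep (gl (d := d) θ) a b := by
  classical
  intro p hp
  set D := ∑ l, (p l).natDegree with hD
  have hle : ∀ l, (p l).natDegree ≤ D := fun l => Finset.single_le_sum (f := fun l => (p l).natDegree)
    (fun _ _ => Nat.zero_le _) (Finset.mem_univ l)
  have h1 := exp_ind (fun x : (Fin k → Fin (d + 1)) × Fin (D + 1) => ex θ x.1 + (x.2 : ℕ)) (by
    rintro ⟨l, m⟩ ⟨l', m'⟩ hh
    simp only at hh
    have h2 := ex_inj θ hθ l l' ((m' : ℕ) - (m : ℕ)) (by push_cast; linarith)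
    subst h2
    have h3 : ((m : ℕ) : ℝ) = (m' : ℕ) := by linarith
    exact Prod.ext rfl (Fin.ext (by exact_mod_cast h3)))
    (fun x => ∑ c : Fin (d + 1), C ((p (c, x.1)).coeff x.2) * X ^ (c : ℕ)) (Real.log a) (Real.log b)
    (Real.log_lt_log ha hab) (by
    intro x hx
    have ht : Real.exp x ∈ Icc a b := by
      constructor
      · rw [← Real.exp_log ha]
        exact Real.exp_le_exp.2 hx.1
      · rw [← Real.exp_log (ha.trans hab)]
        exact Real.exp_le_exp.2 hx.2
    rw [Fintype.sum_prod_type, ← hp _ ht, Fintype.sum_prod_type, Finset.sum_comm (s := (Finset.univ : Finset (Fin (d + 1))))]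
    refine Finset.sum_congr rfl fun f _ => ?_
    have h5 : ∀ c : Fin (d + 1), (p (c, f)).eval (Real.exp x) * gl θ (c, f) (Real.exp x) =
        ∑ m : Fin (D + 1), (p (c, f)).coeff m * x ^ (c : ℕ) * Real.exp ((ex θ f + (m : ℕ)) * x) := by
      intro c
      rw [eval_eq_sum_range' (Nat.lt_succ_of_le (hle (c, f))), ← Fin.sum_univ_eq_sum_range
        (fun j => (p (c, f)).coeff j * Real.exp x ^ j), Finset.sum_mul]
      refine Finset.sum_congr rfl fun m _ => ?_
      simp only [gl, pf, Real.log_exp]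
      rw [add_mul, Real.exp_add, ← Real.exp_nat_mul]
      ring
    simp only [h5]
    rw [Finset.sum_comm]
    refine Finset.sum_congr rfl fun m _ => ?_
    rw [eval_finsetSum, Finset.sum_mul]
    refine Finset.sum_congr rfl fun c _ => ?_
    simp only [eval_mul, eval_C, eval_pow, eval_X])
  funext ⟨c, f⟩
  ext j
  rcases Nat.lt_or_ge j (D + 1) with hj | hj
  · have h2 := congrArg (fun q => Polynomial.coeff q (c : ℕ)) (congrFun h1 (f, ⟨j, hj⟩))
    simp only [finsetSum_coeff, coeff_C_mul, coeff_X_pow, mul_ite, mul_one, mul_zero, Pi.zero_apply, coeff_zero] at h2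
    rw [Finset.sum_eq_single c (fun c' _ hc' => if_neg fun hh => hc' (Fin.ext hh.symm))
      (fun hi => absurd (Finset.mem_univ c) hi), if_pos rfl] at h2
    rw [h2]
    simp
  · rw [coeff_eq_zero_of_natDegree_lt (lt_of_le_of_lt (hle _) hj)]
    simp

end

end Pool.Agent.TH426.Pw
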