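import Pool.Agent.TH426.Pw.LogInd

/-!
# The numbers `π`, `log q_j` and `q_j ^ θ_i` for almost all rational numbers `q_j`
-/

set_option autoImplicit false

open Set Polynomial Filter Topology

namespace Pool.Agent.TH426.Pw

open Pool.Agent.TH818.AR Pool.Agent.TH818.AP

section

variable {n k d : ℕ}

/-- the exponent vector -/
noncomputable def sQ (e : (Fin n → Fin (d + 1) × (Fin k → Fin (d + 1))) × Fin (d + 1)) :
    Option (Fin n × Option (Fin k)) →₀ ℕ :=
  Finsupp.equivFunOnFinite.symm fun x => match x with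
    | none => (e.2 : ℕ)
    | some (j, none) => ((e.1 j).1 : ℕ)
    | some (j, some i) => ((e.1 j).2 i : ℕ)

theorem sQ_inj : Function.Injective (sQ (n := n) (k := k) (d := d)) := by
  intro e e' h
  refine Prod.ext ?_ ?_
  · funext j
    refine Prod.ext ?_ ?_
    · have := DFunLike.congr_fun h (some (j, none))
      exact Fin.ext (by simpa [sQ] using this)
    · funext i
      have := DFunLike.congr_fun h (some (j, some i))
      exact Fin.ext (by simpa [sQ] using this)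
  · have := DFunLike.congr_fun h none
    exact Fin.ext (by simpa [sQ] using this)

theorem sQ_surj (s : Option (Fin n × Option (Fin k)) →₀ ℕ) (hs : ∀ x, s x < d + 1) :
    ∃ e : (Fin n → Fin (d + 1) × (Fin k → Fin (d + 1))) × Fin (d + 1), sQ e = s :=
  ⟨(fun j => (⟨s (some (j, none)), hs _⟩, fun i => ⟨s (some (j, some i)), hs _⟩), ⟨s none, hs _⟩), by
    ext x
    rcases x with _ | ⟨j, _ | i⟩
    · simp [sQ]
    · simp [sQ]
    · simp [sQ]⟩

theorem aeval_sQ (f : Option (Fin n × Option (Fin k)) → ℝ) (P : MvPolynomial (Option (Fin n × Option (Fin k))) ℤ)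
    (hP : ∀ x, P.degreeOf x ≤ d) : MvPolynomial.aeval f P =
      ∑ e : (Fin n → Fin (d + 1) × (Fin k → Fin (d + 1))) × Fin (d + 1), ((P.coeff (sQ e) : ℤ) : ℝ) *
        (f none ^ (e.2 : ℕ) * ∏ j, (f (some (j, none)) ^ ((e.1 j).1 : ℕ) *
          ∏ i, f (some (j, some i)) ^ ((e.1 j).2 i : ℕ))) := by
  classical
  have h1 : ∀ e : (Fin n → Fin (d + 1) × (Fin k → Fin (d + 1))) × Fin (d + 1),
      f none ^ (e.2 : ℕ) * ∏ j, (f (some (j, none)) ^ ((e.1 j).1 : ℕ) *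
          ∏ i, f (some (j, some i)) ^ ((e.1 j).2 i : ℕ)) = ∏ x, f x ^ (sQ e x) := by
    intro e
    rw [Fintype.prod_option, Fintype.prod_prod_type]
    simp only [Fintype.prod_option]
    simp [sQ]
  simp only [h1]
  rw [MvPolynomial.aeval_def, MvPolynomial.eval₂_eq']
  rw [← Finset.sum_image (f := fun s : Option (Fin n × Option (Fin k)) →₀ ℕ => ((P.coeff s : ℤ) : ℝ) * ∏ x, f x ^ (s x))
    (fun a _ b _ hab => sQ_inj hab)]
  refine Finset.sum_subset_zero_on_sdiff ?_ ?_ ?_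
  · intro s hs
    rw [Finset.mem_image]
    obtain ⟨e, he⟩ := sQ_surj (d := d) s (fun x =>
      Nat.lt_succ_of_le ((MvPolynomial.monomial_le_degreeOf x hs).trans (hP x)))
    exact ⟨e, Finset.mem_univ _, he⟩
  · intro s hs
    rw [Finset.mem_sdiff, MvPolynomial.notMem_support_iff] at hs
    rw [hs.2]
    simp
  · intro s _
    simp

theorem coeff_sQ (P : MvPolynomial (Option (Fin n × Option (Fin k))) ℤ) (hP0 : P ≠ 0) (hP : ∀ x, P.degreeOf x ≤ d) :
    (fun e : (Fin n → Fin (d + 1) × (Fin k → Fin (d + 1))) × Fin (d + 1) => P.coeff (sQ e)) ≠ 0 := by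
  intro h
  apply hP0
  ext s
  rw [MvPolynomial.coeff_zero]
  by_contra hs
  have hs' : s ∈ P.support := MvPolynomial.mem_support_iff.2 hs
  obtain ⟨e, he⟩ := sQ_surj (d := d) s (fun x =>
    Nat.lt_succ_of_le ((MvPolynomial.monomial_le_degreeOf x hs').trans (hP x)))
  have := congrFun h e
  simp only [he, Pi.zero_apply] at this
  exact hs this

/-- the values `π`, `log α_j`, `α_j ^ θ_(j,i)`, `α_j = x_j + y_j q_j` -/
noncomputable def valq (x y : Fin n → ℝ) (θ : Fin n → Fin k → ℝ) (q : Fin n → ℚ)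
    (s : Option (Fin n × Option (Fin k))) : ℝ :=
  match s with
  | none => Real.pi
  | some (j, none) => Real.log (x j + y j * q j)
  | some (j, some i) => (x j + y j * q j) ^ θ j i

/-- the functions -/
noncomputable def gx (x y : Fin n → ℝ) (θ : Fin n → Fin k → ℝ) (j : Fin n) (e : Fin (d + 1) × (Fin k → Fin (d + 1)))
    (t : ℝ) : ℝ := gl (θ j) e (x j + y j * t)

theorem gx_an (x y : Fin n → ℝ) (θ : Fin n → Fin k → ℝ) (j : Fin n) (e : Fin (d + 1) × (Fin k → Fin (d + 1))) {t : ℝ}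
    (ht : 0 < x j + y j * t) : AnalyticAt ℝ (gx x y θ j e) t := by
  have h1 : AnalyticAt ℝ (fun t : ℝ => x j + y j * t) t := analyticAt_const.add (analyticAt_const.mul analyticAt_id)
  exact AnalyticAt.comp (g := gl (θ j) e) (f := fun t : ℝ => x j + y j * t) (gl_an (θ j) e ht) h1

theorem gx_ind (x y : Fin n → ℝ) (θ : Fin n → Fin k → ℝ) (j : Fin n) (hy : 0 < y j)
    (hθ : ∀ (m : Fin k → ℤ) (z : ℤ), (∀ i, |m i| ≤ d) → ∑ i, (m i : ℝ) * θ j i = z → m = 0)
    (a b : ℝ) (ha : 0 < x j + y j * a) (hab : a < b) : RIndep (gx (d := d) x y θ j) a b := by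
  classical
  intro p hp
  have h1 := gl_ind (d := d) (θ j) hθ (x j + y j * a) (x j + y j * b) ha (by
    have := mul_lt_mul_of_pos_left hab hy
    linarith) (fun e => (p e).comp (C (y j)⁻¹ * (X - C (x j)))) (by
    intro τ hτ
    have h2 := hp ((y j)⁻¹ * (τ - x j)) (by
      constructor
      · rw [le_inv_mul_iff₀ hy]
        linarith [hτ.1]
      · rw [inv_mul_le_iff₀ hy]
        linarith [hτ.2])
    have h3 : x j + y j * ((y j)⁻¹ * (τ - x j)) = τ := by
      rw [← mul_assoc, mul_inv_cancel₀ hy.ne', one_mul]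
      ring
    simp only [gx, h3] at h2
    simp only [eval_comp, eval_mul, eval_sub, eval_C, eval_X]
    exact h2)
  funext e
  have h2 := congrArg (fun r : ℝ[X] => r.comp (C (y j) * X + C (x j))) (congrFun h1 e)
  simp only [comp_assoc, mul_comp, sub_comp, C_comp, X_comp, add_sub_cancel_right, Pi.zero_apply, zero_comp] at h2
  rw [← mul_assoc, ← C_mul, inv_mul_cancel₀ hy.ne', C_1, one_mul, comp_X] at h2
  exact h2

/-- a monomial in the values -/
theorem mono_valq (x y : Fin n → ℝ) (θ : Fin n → Fin k → ℝ) (q : Fin n → ℚ) (hq : ∀ j, (0 : ℝ) < x j + y j * q j)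
    (e : (Fin n → Fin (d + 1) × (Fin k → Fin (d + 1))) × Fin (d + 1)) :
    mono (gx (d := d) x y θ) (fun e : Fin (d + 1) => Real.pi ^ (e : ℕ)) q e =
      valq x y θ q none ^ (e.2 : ℕ) * ∏ j, (valq x y θ q (some (j, none)) ^ ((e.1 j).1 : ℕ) *
          ∏ i, valq x y θ q (some (j, some i)) ^ ((e.1 j).2 i : ℕ)) := by
  have h1 : ∀ j, gx x y θ j (e.1 j) (q j : ℝ) = valq x y θ q (some (j, none)) ^ ((e.1 j).1 : ℕ) *
          ∏ i, valq x y θ q (some (j, some i)) ^ ((e.1 j).2 i : ℕ) := by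
    intro j
    rw [gx, gl, pf_eq _ (hq j), ex, Real.rpow_sum_of_pos (hq j)]
    simp only [valq]
    congr 1
    refine Finset.prod_congr rfl fun i _ => ?_
    rw [mul_comm (((e.1 j).2 i : ℕ) : ℝ) (θ j i), Real.rpow_mul (hq j).le, Real.rpow_natCast]
  unfold mono
  simp only [h1]
  rw [mul_comm]
  rfl

/-- exceptional tuples -/
def ExcQ (d : ℕ) (x y : Fin n → ℝ) (θ : Fin n → Fin k → ℝ) (a b : Fin n → ℝ) (A B T : ℝ) : Set (Fin n → ℚ) :=
  {q | (∀ j, a j ≤ q j ∧ (q j : ℝ) ≤ b j ∧ ((q j).den : ℝ) ≤ T) ∧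
    ∃ P : MvPolynomial (Option (Fin n × Option (Fin k))) ℤ, P ≠ 0 ∧
    (∀ s, P.degreeOf s ≤ d) ∧ (∀ m, |((P.coeff m : ℤ) : ℝ)| ≤ T ^ A) ∧
    |MvPolynomial.aeval (valq x y θ q) P| ≤ T ^ (-B)}

end

theorem mainQ (k n d : ℕ) (hn : 1 ≤ n) (x y : Fin n → ℝ) (hy : ∀ j, 0 < y j) (θ : Fin n → Fin k → ℝ)
    (hθ : ∀ j, ∀ (m : Fin k → ℤ) (z : ℤ), (∀ i, |m i| ≤ d) → ∑ i, (m i : ℝ) * θ j i = z → m = 0)
    (a b : Fin n → ℝ) (ha : ∀ j, 0 < x j + y j * a j) (hab : ∀ j, a j < b j) (A β : ℝ) (hA : 0 ≤ A)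
    (hβ : 2 - 2 / (((d : ℝ) + 1) ^ ((k + 1) * n + 1) + 1) < β) :
    ∃ B C : ℝ, ∀ T : ℝ, 1 ≤ T → (ExcQ d x y θ a b A B T).Finite ∧
      ((ExcQ d x y θ a b A B T).ncard : ℝ) ≤ C * T ^ (2 * ((n : ℝ) - 1) + β) := by
  classical
  have hι : 0 < Fintype.card (Fin (d + 1) × (Fin k → Fin (d + 1))) := Fintype.card_pos
  have hcard : (Fintype.card (Fin (d + 1) × (Fin k → Fin (d + 1)))) ^ n * Fintype.card (Fin (d + 1)) =
      (d + 1) ^ ((k + 1) * n + 1) := by
    simp only [Fintype.card_prod, Fintype.card_pi, Fintype.card_fin, Finset.prod_const, Finset.card_univ]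
    rw [← pow_succ', ← pow_mul, ← pow_succ]
  have hM0 : (0 : ℝ) < ((d : ℝ) + 1) ^ ((k + 1) * n + 1) := by positivity
  have hβ' : 2 * (((Fintype.card (Fin (d + 1) × (Fin k → Fin (d + 1)))) ^ n * Fintype.card (Fin (d + 1)) : ℕ) : ℝ) /
      ((((Fintype.card (Fin (d + 1) × (Fin k → Fin (d + 1)))) ^ n * Fintype.card (Fin (d + 1)) : ℕ) : ℝ) + 1) < β := by
    rw [hcard]
    refine lt_of_le_of_lt (le_of_eq ?_) hβ
    push_cast
    field_simp
    ring
  have hpos : ∀ j, ∀ t : ℝ, a j ≤ t → 0 < x j + y j * t := by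
    intro j t ht
    have := mul_le_mul_of_nonneg_left ht (hy j).le
    linarith [ha j]
  obtain ⟨B, C, h⟩ := multi_gen hι _ (goodConst_pi d) n hn (gx (d := d) x y θ) a b hab
    (fun j l t ht => gx_an x y θ j l (hpos j t ht.1))
    (fun j => gx_ind x y θ j (hy j) (hθ j) (a j) (b j) (ha j) (hab j)) A β hA hβ'
  refine ⟨B, C, fun T hT => ?_⟩
  obtain ⟨h1, h2⟩ := h T hT
  have hsub : ExcQ d x y θ a b A B T ⊆ ExcM (gx (d := d) x y θ)
      (fun e : Fin (d + 1) => Real.pi ^ (e : ℕ)) a b A B T := by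
    rintro q ⟨hq, P, hP0, hPd, hPc, hPs⟩
    have hq0 : ∀ j, (0 : ℝ) < x j + y j * q j := fun j => hpos j _ (hq j).1
    refine ⟨fun j => ⟨⟨(hq j).1, (hq j).2.1⟩, (hq j).2.2⟩, fun e => P.coeff (sQ e), coeff_sQ P hP0 hPd,
      fun e => hPc _, ?_⟩
    rw [aeval_sQ (valq x y θ q) P hPd] at hPs
    simp only [mono_valq x y θ q hq0]
    exact hPs
  refine ⟨h1.subset hsub, ?_⟩
  have h3 := Set.ncard_le_ncard hsub h1
  have h4 : ((ExcQ d x y θ a b A B T).ncard : ℝ) ≤ _ := (Nat.cast_le (α := ℝ)).2 h3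
  exact h4.trans h2

end Pool.Agent.TH426.Pw
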