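import Pool.Agent.TH426.Pw.Ind
import Pool.Agent.TH659.AQ.ZMulti

/-!
# The numbers `π` and `u_j ^ θ_i` for almost all integers `u_j`
-/

set_option autoImplicit false

open Set Polynomial Filter Topology

namespace Pool.Agent.TH426.Pw

open Pool.Agent.TH818.AR Pool.Agent.TH818.AP Pool.Agent.TH659.AQ

section

variable {r k d : ℕ}

/-- exponent of the monomial -/
noncomputable def ex (θ : Fin k → ℝ) (e : Fin k → Fin (d + 1)) : ℝ := ∑ i, ((e i : ℕ) : ℝ) * θ i

theorem ex_inj (θ : Fin k → ℝ)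
    (hθ : ∀ (m : Fin k → ℤ) (z : ℤ), (∀ i, |m i| ≤ d) → ∑ i, (m i : ℝ) * θ i = z → m = 0)
    (e e' : Fin k → Fin (d + 1)) (z : ℤ) (h : ex θ e - ex θ e' = z) : e = e' := by
  have h1 := hθ (fun i => ((e i : ℕ) : ℤ) - ((e' i : ℕ) : ℤ)) z (by
    intro i
    have h1 := (e i).isLt
    have h2 := (e' i).isLt
    rw [abs_le]
    constructor <;> omega) (by
    rw [← h]
    simp only [ex]
    push_cast
    simp only [sub_mul, Finset.sum_sub_distrib])
  funext i
  have := congrFun h1 i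
  simp only [Pi.zero_apply] at this
  exact Fin.ext (by omega)

/-- the exponent vector -/
noncomputable def sP (e : (Fin r → Fin k → Fin (d + 1)) × Fin (d + 1)) : Option (Fin r × Fin k) →₀ ℕ :=
  Finsupp.equivFunOnFinite.symm fun x => match x with
    | none => (e.2 : ℕ)
    | some y => (e.1 y.1 y.2 : ℕ)

theorem sP_inj : Function.Injective (sP (r := r) (k := k) (d := d)) := by
  intro e e' h
  refine Prod.ext ?_ ?_
  · funext j i
    have := DFunLike.congr_fun h (some (j, i))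
    exact Fin.ext (by simpa [sP] using this)
  · have := DFunLike.congr_fun h none
    exact Fin.ext (by simpa [sP] using this)

theorem sP_surj (s : Option (Fin r × Fin k) →₀ ℕ) (hs : ∀ x, s x < d + 1) :
    ∃ e : (Fin r → Fin k → Fin (d + 1)) × Fin (d + 1), sP e = s :=
  ⟨(fun j i => ⟨s (some (j, i)), hs _⟩, ⟨s none, hs _⟩), by
    ext x
    cases x with
    | none => simp [sP]
    | some y => simp [sP]⟩

theorem aeval_sP (f : Option (Fin r × Fin k) → ℝ) (P : MvPolynomial (Option (Fin r × Fin k)) ℤ)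
    (hP : ∀ x, P.degreeOf x ≤ d) : MvPolynomial.aeval f P =
      ∑ e : (Fin r → Fin k → Fin (d + 1)) × Fin (d + 1), ((P.coeff (sP e) : ℤ) : ℝ) *
        (f none ^ (e.2 : ℕ) * ∏ j, ∏ i, f (some (j, i)) ^ (e.1 j i : ℕ)) := by
  classical
  have h1 : ∀ e : (Fin r → Fin k → Fin (d + 1)) × Fin (d + 1),
      f none ^ (e.2 : ℕ) * ∏ j, ∏ i, f (some (j, i)) ^ (e.1 j i : ℕ) = ∏ x, f x ^ (sP e x) := by
    intro e
    rw [Fintype.prod_option, Fintype.prod_prod_type]
    simp [sP]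
  simp only [h1]
  rw [MvPolynomial.aeval_def, MvPolynomial.eval₂_eq']
  rw [← Finset.sum_image (f := fun s : Option (Fin r × Fin k) →₀ ℕ => ((P.coeff s : ℤ) : ℝ) * ∏ x, f x ^ (s x))
    (fun a _ b _ hab => sP_inj hab)]
  refine Finset.sum_subset_zero_on_sdiff ?_ ?_ ?_
  · intro s hs
    rw [Finset.mem_image]
    obtain ⟨e, he⟩ := sP_surj (d := d) s (fun x =>
      Nat.lt_succ_of_le ((MvPolynomial.monomial_le_degreeOf x hs).trans (hP x)))
    exact ⟨e, Finset.mem_univ _, he⟩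
  · intro s hs
    rw [Finset.mem_sdiff, MvPolynomial.notMem_support_iff] at hs
    rw [hs.2]
    simp
  · intro s _
    simp

theorem coeff_sP (P : MvPolynomial (Option (Fin r × Fin k)) ℤ) (hP0 : P ≠ 0) (hP : ∀ x, P.degreeOf x ≤ d) :
    (fun e : (Fin r → Fin k → Fin (d + 1)) × Fin (d + 1) => P.coeff (sP e)) ≠ 0 := by
  intro h
  apply hP0
  ext s
  rw [MvPolynomial.coeff_zero]
  by_contra hs
  have hs' : s ∈ P.support := MvPolynomial.mem_support_iff.2 hs
  obtain ⟨e, he⟩ := sP_surj (d := d) s (fun x =>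
    Nat.lt_succ_of_le ((MvPolynomial.monomial_le_degreeOf x hs').trans (hP x)))
  have := congrFun h e
  simp only [he, Pi.zero_apply] at this
  exact hs this

/-- the value `π` and the values `u_j ^ θ_i` -/
noncomputable def vals (θ : Fin k → ℝ) (u : Fin r → ℕ) (s : Option (Fin r × Fin k)) : ℝ :=
  match s with
  | none => Real.pi
  | some y => (u y.1 : ℝ) ^ θ y.2

/-- a monomial in the values -/
theorem mono_vals (θ : Fin k → ℝ) (N : ℕ) (hN : 1 ≤ N) (K : ℝ) (u : Fin r → ℕ) (hu : ∀ j, 0 < u j)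
    (e : (Fin r → Fin k → Fin (d + 1)) × Fin (d + 1)) :
    monoZ (fun (_ : Fin r) (e : Fin k → Fin (d + 1)) => pf (ex θ e)) (fun e => (N : ℝ) ^ (K + ex θ e))
      (fun e : Fin (d + 1) => Real.pi ^ (e : ℕ)) (fun j => (u j : ℚ) / N) e =
      ((N : ℝ) ^ K) ^ r * (vals θ u none ^ (e.2 : ℕ) * ∏ j, ∏ i, vals θ u (some (j, i)) ^ (e.1 j i : ℕ)) := by
  have hNp : (0 : ℝ) < N := by exact_mod_cast hN
  have h1 : ∀ j, (N : ℝ) ^ (K + ex θ (e.1 j)) * pf (ex θ (e.1 j)) (((u j : ℚ) / N : ℚ) : ℝ) =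
      (N : ℝ) ^ K * ∏ i, vals θ u (some (j, i)) ^ (e.1 j i : ℕ) := by
    intro j
    have huj : (0 : ℝ) < u j := by exact_mod_cast hu j
    push_cast
    rw [pf_eq _ (by positivity), Real.rpow_add hNp, mul_assoc, ← Real.mul_rpow hNp.le (by positivity)]
    congr 1
    rw [mul_div_cancel₀ _ hNp.ne', ex, Real.rpow_sum_of_pos huj]
    refine Finset.prod_congr rfl fun i _ => ?_
    simp only [vals]
    rw [mul_comm, Real.rpow_mul huj.le, Real.rpow_natCast]
  unfold monoZ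
  simp only [h1]
  rw [Finset.prod_mul_distrib, Finset.prod_const, Finset.card_univ, Fintype.card_fin]
  simp only [vals]
  ring

/-- exceptional tuples -/
def Exc (r d : ℕ) (θ : Fin k → ℝ) (a b A B : ℝ) (N : ℕ) : Set (Fin r → ℕ) :=
  {u | (∀ j, a * N ≤ u j ∧ (u j : ℝ) ≤ b * N) ∧ ∃ P : MvPolynomial (Option (Fin r × Fin k)) ℤ, P ≠ 0 ∧
    (∀ s, P.degreeOf s ≤ d) ∧ (∀ m, |((P.coeff m : ℤ) : ℝ)| ≤ (N : ℝ) ^ A) ∧
    |MvPolynomial.aeval (vals θ u) P| ≤ (N : ℝ) ^ (-B)}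

end

theorem main (k r d : ℕ) (hr : 1 ≤ r) (θ : Fin k → ℝ)
    (hθ : ∀ (m : Fin k → ℤ) (z : ℤ), (∀ i, |m i| ≤ d) → ∑ i, (m i : ℝ) * θ i = z → m = 0)
    (a b : ℝ) (ha : 0 < a) (hab : a < b) (A β : ℝ) (hA : 0 ≤ A)
    (hβ : 1 - 1 / (((d : ℝ) + 1) ^ (k * r + 1) + 1) < β) :
    ∃ B C : ℝ, ∀ N : ℕ, 1 ≤ N → (Exc r d θ a b A B N).Finite ∧
      ((Exc r d θ a b A B N).ncard : ℝ) ≤ C * (N : ℝ) ^ ((r : ℝ) - 1 + β) := by
  classical
  have hι : 0 < Fintype.card (Fin k → Fin (d + 1)) := Fintype.card_pos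
  have hcard : (Fintype.card (Fin k → Fin (d + 1))) ^ r * Fintype.card (Fin (d + 1)) = (d + 1) ^ (k * r + 1) := by
    simp only [Fintype.card_pi, Fintype.card_fin, Finset.prod_const, Finset.card_univ]
    rw [← pow_mul, ← pow_succ]
  have hM0 : (0 : ℝ) < ((d : ℝ) + 1) ^ (k * r + 1) := by positivity
  have hβ' : (((Fintype.card (Fin k → Fin (d + 1))) ^ r * Fintype.card (Fin (d + 1)) : ℕ) : ℝ) /
      ((((Fintype.card (Fin k → Fin (d + 1))) ^ r * Fintype.card (Fin (d + 1)) : ℕ) : ℝ) + 1) < β := by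
    rw [hcard]
    refine lt_of_le_of_lt (le_of_eq ?_) hβ
    push_cast
    field_simp
    ring
  have hβ0 : 0 < β := lt_of_le_of_lt (by positivity) hβ'
  have hind : RIndep (fun (e : Fin k → Fin (d + 1)) => pf (ex θ e)) a b :=
    fun p hp => pow_rind (ex θ) (ex_inj θ hθ) a b ha hab p hp
  obtain ⟨B, C, T0, hC, hT0, h⟩ := multiZ0 hι _ (goodConst_pi d) r
    (fun (_ : Fin r) (e : Fin k → Fin (d + 1)) => pf (ex θ e)) (fun _ => a) (fun _ => b)
    (fun _ => hab) (fun _ e t ht => pf_an _ (by linarith [ht.1])) (fun _ => hind) A β hA hβ'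
  set K : ℝ := ∑ i, (d : ℝ) * |θ i| with hK
  have hKe : ∀ e : Fin k → Fin (d + 1), 0 ≤ K + ex θ e := by
    intro e
    rw [hK, ex, ← Finset.sum_add_distrib]
    refine Finset.sum_nonneg fun i _ => ?_
    have h1 : ((e i : ℕ) : ℝ) ≤ d := by exact_mod_cast Nat.lt_succ_iff.1 (e i).isLt
    have h2 := mul_le_mul_of_nonneg_right h1 (abs_nonneg (θ i))
    have h3 := mul_le_mul_of_nonneg_left (neg_abs_le (θ i)) (show (0 : ℝ) ≤ ((e i : ℕ) : ℝ) by positivity)
    linarith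
  obtain ⟨K', hK'0, hK'⟩ := card_RZ a b
  have hT00 : 0 < T0 := by linarith
  refine ⟨B + r * K, C + (K' * T0) ^ r, fun N hN => ?_⟩
  have hN1 : (1 : ℝ) ≤ N := by exact_mod_cast hN
  have hNp : (0 : ℝ) < N := by linarith
  have hr1 : (1 : ℝ) ≤ r := by exact_mod_cast hr
  have hNβ : 1 ≤ (N : ℝ) ^ ((r : ℝ) - 1 + β) := Real.one_le_rpow hN1 (by linarith)
  have hKT : 0 ≤ (K' * T0) ^ r := by positivity
  -- division by `N`
  let φ : (Fin r → ℕ) → (Fin r → ℚ) := fun u j => (u j : ℚ) / N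
  have hN0 : (N : ℚ) ≠ 0 := by exact_mod_cast hNp.ne'
  have hφ : Function.Injective φ := by
    intro u u' huu
    funext j
    have := congrFun huu j
    simp only [φ] at this
    rw [div_left_inj' hN0] at this
    exact_mod_cast this
  have hden : ∀ z : ℕ, ((z : ℚ) / N).den ∣ N := by
    intro z
    have h1 := Rat.den_dvd (z : ℤ) (N : ℤ)
    rw [Rat.divInt_eq_div] at h1
    exact_mod_cast h1
  have hmem : ∀ u ∈ Exc r d θ a b A (B + r * K) N, ∀ j, ((φ u j : ℚ) : ℝ) ∈ Set.Icc a b ∧ Den (N : ℝ) (φ u j) := by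
    intro u hu j
    refine ⟨?_, N, rfl, hden _⟩
    simp only [φ]
    push_cast
    rw [Set.mem_Icc, le_div_iff₀ hNp, div_le_iff₀ hNp]
    exact hu.1 j
  have hsub0 : φ '' (Exc r d θ a b A (B + r * K) N) ⊆
      (Fintype.piFinset fun _ : Fin r => RZ a b N : Finset (Fin r → ℚ)) := by
    rintro _ ⟨u, hu, rfl⟩
    rw [Finset.mem_coe, Fintype.mem_piFinset]
    exact fun j => (mem_RZ hN1).2 (hmem u hu j)
  have hfin0 : (φ '' (Exc r d θ a b A (B + r * K) N)).Finite := (Finset.finite_toSet _).subset hsub0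
  refine ⟨hfin0.of_finite_image hφ.injOn, ?_⟩
  rw [← Set.ncard_image_of_injective _ hφ]
  rcases lt_or_ge (N : ℝ) T0 with hlt | hge
  · have h2 := Set.ncard_le_ncard hsub0 (Finset.finite_toSet _)
    rw [Set.ncard_coe_finset, Fintype.card_piFinset, Finset.prod_const, Finset.card_univ, Fintype.card_fin] at h2
    have h3 : ((φ '' (Exc r d θ a b A (B + r * K) N)).ncard : ℝ) ≤ ((RZ a b N).card : ℝ) ^ r := by exact_mod_cast h2
    have h4 : ((RZ a b N).card : ℝ) ^ r ≤ (K' * T0) ^ r := by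
      refine pow_le_pow_left₀ (by positivity) ((hK' N hN1).trans ?_) r
      exact mul_le_mul_of_nonneg_left hlt.le hK'0.le
    nlinarith
  · set s : (Fin k → Fin (d + 1)) → ℝ := fun e => (N : ℝ) ^ (K + ex θ e) with hs
    have hsN : ∀ e, (N : ℝ)⁻¹ ≤ |s e| := by
      intro e
      rw [hs, abs_of_pos (by positivity)]
      exact (inv_le_one_of_one_le₀ hN1).trans (Real.one_le_rpow hN1 (hKe e))
    have hle := h N hge s hsN
    have hsub : φ '' (Exc r d θ a b A (B + r * K) N) ⊆ ExcMZ (fun (_ : Fin r) (e : Fin k → Fin (d + 1)) => pf (ex θ e)) s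
        (fun e : Fin (d + 1) => Real.pi ^ (e : ℕ)) (fun _ => a) (fun _ => b) A B N := by
      rintro _ ⟨u, hu, rfl⟩
      refine ⟨hmem u hu, ?_⟩
      have hup : ∀ j, 0 < u j := by
        intro j
        have h1 := (hu.1 j).1
        have h2 : (0 : ℝ) < u j := lt_of_lt_of_le (by positivity) h1
        exact_mod_cast h2
      obtain ⟨-, P, hP0, hPd, hPc, hPs⟩ := hu
      refine ⟨fun e => P.coeff (sP e), coeff_sP P hP0 hPd, fun e => hPc _, ?_⟩
      have h1 : ∑ e : (Fin r → Fin k → Fin (d + 1)) × Fin (d + 1), ((P.coeff (sP e) : ℤ) : ℝ) *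
          monoZ (fun (_ : Fin r) (e : Fin k → Fin (d + 1)) => pf (ex θ e)) s
          (fun e : Fin (d + 1) => Real.pi ^ (e : ℕ)) (φ u) e =
          ((N : ℝ) ^ K) ^ r * MvPolynomial.aeval (vals θ u) P := by
        rw [aeval_sP (vals θ u) P hPd, Finset.mul_sum]
        refine Finset.sum_congr rfl fun e _ => ?_
        rw [hs, mono_vals θ N hN K u hup e]
        ring
      rw [h1, abs_mul, abs_of_pos (by positivity)]
      calc ((N : ℝ) ^ K) ^ r * |MvPolynomial.aeval (vals θ u) P|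
          ≤ ((N : ℝ) ^ K) ^ r * (N : ℝ) ^ (-(B + r * K)) := mul_le_mul_of_nonneg_left hPs (by positivity)
        _ = (N : ℝ) ^ (-B) := by
            rw [← Real.rpow_natCast, ← Real.rpow_mul hNp.le, ← Real.rpow_add hNp]
            congr 1
            ring
    have h3 := Set.ncard_le_ncard hsub (ExcMZ_fin _ _ _ _ _ _ _ _ hN1)
    have h4 : ((φ '' (Exc r d θ a b A (B + r * K) N)).ncard : ℝ) ≤ _ := (Nat.cast_le (α := ℝ)).2 h3
    have h5 := h4.trans hle
    nlinarith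

end Pool.Agent.TH426.Pw
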