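import Pool.Agent.TH818.AP.Api

/-!
# The numbers `π` and `e ^ (v_x (q_j))` for almost all rational numbers `q_j`
-/

set_option autoImplicit false

open Set Polynomial Filter Topology

namespace Pool.Agent.TH426.Tw

open Pool.Agent.TH818.AR Pool.Agent.TH818.AP

theorem poly_exp (p : ℝ[X]) (c : ℝ) (hc : 0 < c) :
    Tendsto (fun t : ℝ => p.eval t * Real.exp (-(c * t))) atTop (𝓝 0) := by
  have h1 := (Polynomial.tendsto_div_exp_atTop (p.comp (C c⁻¹ * X))).comp (tendsto_id.const_mul_atTop hc)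
  refine h1.congr fun t => ?_
  simp only [Function.comp, id, eval_comp, eval_mul, eval_C, eval_X, Real.exp_neg, div_eq_mul_inv]
  rw [← mul_assoc, inv_mul_cancel₀ hc.ne', one_mul]

/-- `L` is much smaller than `L'` -/
def Sm (L L' : ℝ → ℝ) : Prop := ∃ c : ℝ, 0 < c ∧ ∀ᶠ t in atTop, c * t ≤ L' t - L t

/-- exponentials of different growth -/
theorem ind_exp {ι : Type} [Fintype ι] (L : ι → ℝ → ℝ) (hcmp : ∀ e e', e ≠ e' → Sm (L e) (L e') ∨ Sm (L e') (L e))
    (p : ι → ℝ[X]) (h : ∀ᶠ t in atTop, ∑ e, (p e).eval t * Real.exp (L e t) = 0) : p = 0 := by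
  classical
  by_contra hp
  obtain ⟨e1, he1⟩ : ∃ e, p e ≠ 0 := by
    by_contra hcon
    push Not at hcon
    exact hp (funext hcon)
  have hev : ∀ᶠ t in atTop, ∀ e e', Sm (L e) (L e') → L e t < L e' t := by
    rw [eventually_all]
    intro e
    rw [eventually_all]
    intro e'
    by_cases hR : Sm (L e) (L e')
    · obtain ⟨c, hc, hct⟩ := hR
      filter_upwards [hct, eventually_gt_atTop 0] with t ht ht0 _
      have := mul_pos hc ht0
      linarith
    · exact Eventually.of_forall fun t hR' => absurd hR' hR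
  obtain ⟨t0, ht0⟩ := hev.exists
  obtain ⟨e0, he0, hmax⟩ := Finset.exists_max_image (Finset.univ.filter fun e => p e ≠ 0) (fun e => L e t0)
    ⟨e1, by simp [he1]⟩
  rw [Finset.mem_filter] at he0
  have hterm : ∀ e ∈ Finset.univ.erase e0,
      Tendsto (fun t => (p e).eval t * Real.exp (L e t - L e0 t)) atTop (𝓝 0) := by
    intro e he
    rcases eq_or_ne (p e) 0 with h0 | h0
    · simp [h0]
    have hne : e ≠ e0 := Finset.ne_of_mem_erase he
    have hR : Sm (L e) (L e0) := by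
      rcases hcmp e e0 hne with h1 | h1
      · exact h1
      · have h2 := ht0 e0 e h1
        have h3 := hmax e (by simp [h0])
        linarith
    obtain ⟨c, hc, hct⟩ := hR
    have h1 : Tendsto (fun t : ℝ => |(p e).eval t * Real.exp (-(c * t))|) atTop (𝓝 0) := by
      have := (poly_exp (p e) c hc).abs
      rwa [abs_zero] at this
    refine squeeze_zero_norm' ?_ h1
    filter_upwards [hct] with t ht
    rw [Real.norm_eq_abs, abs_mul, abs_mul, abs_of_pos (Real.exp_pos _), abs_of_pos (Real.exp_pos _)]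
    gcongr
    linarith
  have hsum := tendsto_finsetSum _ hterm
  rw [Finset.sum_const_zero] at hsum
  have hlim : Tendsto (fun t => (p e0).eval t) atTop (𝓝 0) := by
    have h2 := hsum.neg
    rw [neg_zero] at h2
    refine h2.congr' ?_
    filter_upwards [h] with t ht1
    have h3 : ∑ e, (p e).eval t * Real.exp (L e t - L e0 t) = 0 := by
      have : ∑ e, (p e).eval t * Real.exp (L e t - L e0 t) =
          (∑ e, (p e).eval t * Real.exp (L e t)) * Real.exp (-L e0 t) := by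
        rw [Finset.sum_mul]
        refine Finset.sum_congr rfl fun e _ => ?_
        rw [mul_assoc, ← Real.exp_add, sub_eq_add_neg]
      rw [this, ht1, zero_mul]
    rw [← Finset.add_sum_erase _ _ (Finset.mem_univ e0), sub_self, Real.exp_zero, mul_one] at h3
    linarith
  have h4 := (Polynomial.tendsto_nhds_iff _).1 hlim
  exact he0.2 (leadingCoeff_eq_zero.1 h4.1)

section

variable {κ : Type} [Fintype κ] {n d : ℕ}

/-- logarithm of a monomial -/
noncomputable def lm (v : κ → ℝ → ℝ) (e : κ → Fin (d + 1)) (t : ℝ) : ℝ := ∑ x, ((e x : ℕ) : ℝ) * v x t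

/-- the combinations grow at least linearly -/
def Grows (d : ℕ) (v : κ → ℝ → ℝ) : Prop := ∀ c : κ → ℤ, c ≠ 0 → (∀ x, |c x| ≤ d) → ∃ ε : ℝ, 0 < ε ∧
  ((∀ᶠ t in atTop, ε * t ≤ ∑ x, (c x : ℝ) * v x t) ∨ (∀ᶠ t in atTop, ε * t ≤ -∑ x, (c x : ℝ) * v x t))

theorem lm_cmp (v : κ → ℝ → ℝ) (hv : Grows d v) (e e' : κ → Fin (d + 1)) (hne : e ≠ e') :
    Sm (lm v e) (lm v e') ∨ Sm (lm v e') (lm v e) := by
  classical
  have hD : ∀ t, ∑ x, (((((e' x : ℕ) : ℤ) - ((e x : ℕ) : ℤ) : ℤ)) : ℝ) * v x t = lm v e' t - lm v e t := by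
    intro t
    simp only [lm]
    rw [← Finset.sum_sub_distrib]
    refine Finset.sum_congr rfl fun x _ => ?_
    push_cast
    ring
  obtain ⟨ε, hε, h | h⟩ := hv (fun x => ((e' x : ℕ) : ℤ) - ((e x : ℕ) : ℤ)) (by
    intro h0
    apply hne
    funext x
    have := congrFun h0 x
    simp only [Pi.zero_apply] at this
    exact Fin.ext (by omega)) (by
    intro x
    have h1 := (e x).isLt
    have h2 := (e' x).isLt
    rw [abs_le]
    constructor <;> omega)
  · left
    refine ⟨ε, hε, ?_⟩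
    filter_upwards [h] with t ht
    rwa [hD] at ht
  · right
    refine ⟨ε, hε, ?_⟩
    filter_upwards [h] with t ht
    rw [hD] at ht
    linarith

/-- the functions -/
noncomputable def gt (v : κ → ℝ → ℝ) (e : κ → Fin (d + 1)) (t : ℝ) : ℝ := Real.exp (lm v e t)

theorem gt_an (v : κ → ℝ → ℝ) (e : κ → Fin (d + 1)) {t : ℝ} (ht : ∀ x, AnalyticAt ℝ (v x) t) :
    AnalyticAt ℝ (gt v e) t := by
  unfold gt lm
  exact (Finset.analyticAt_fun_sum _ fun x _ => analyticAt_const.mul (ht x)).rexp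

theorem gt_ind [DecidableEq κ] (v : κ → ℝ → ℝ) (hv : Grows d v) (a b : ℝ) (hab : a < b) (han : ∀ x, AnalyticOnNhd ℝ (v x) (Ici a)) :
    RIndep (gt (d := d) v) a b := by
  classical
  intro p hp
  refine ind_exp (lm v) (lm_cmp v hv) p ?_
  have h1 : AnalyticOnNhd ℝ (fun t => ∑ e, (p e).eval t * gt (d := d) v e t) (Ici a) := by
    intro t ht
    refine Finset.analyticAt_fun_sum _ fun e _ => ?_
    exact (AnalyticOnNhd.eval_polynomial (p e) t (mem_univ _)).mul (gt_an v e fun x => han x t ht)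
  have h2 : (fun t => ∑ e, (p e).eval t * gt (d := d) v e t) =ᶠ[𝓝 ((a + b) / 2)] 0 := by
    filter_upwards [Icc_mem_nhds (show a < (a + b) / 2 by linarith) (show (a + b) / 2 < b by linarith)] with t ht
    exact hp t ht
  have h3 := h1.eqOn_zero_of_preconnected_of_eventuallyEq_zero isPreconnected_Ici
    (show (a + b) / 2 ∈ Ici a by rw [mem_Ici]; linarith) h2
  filter_upwards [eventually_ge_atTop a] with t ht
  exact h3 ht

/-- the exponent vector -/
noncomputable def sR (e : (Fin n → κ → Fin (d + 1)) × Fin (d + 1)) : Option (Fin n × κ) →₀ ℕ :=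
  Finsupp.equivFunOnFinite.symm fun x => match x with
    | none => (e.2 : ℕ)
    | some y => (e.1 y.1 y.2 : ℕ)

theorem sR_inj : Function.Injective (sR (κ := κ) (n := n) (d := d)) := by
  intro e e' h
  refine Prod.ext ?_ ?_
  · funext j i
    have := DFunLike.congr_fun h (some (j, i))
    exact Fin.ext (by simpa [sR] using this)
  · have := DFunLike.congr_fun h none
    exact Fin.ext (by simpa [sR] using this)

theorem sR_surj (s : Option (Fin n × κ) →₀ ℕ) (hs : ∀ x, s x < d + 1) :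
    ∃ e : (Fin n → κ → Fin (d + 1)) × Fin (d + 1), sR e = s :=
  ⟨(fun j i => ⟨s (some (j, i)), hs _⟩, ⟨s none, hs _⟩), by
    ext x
    cases x with
    | none => simp [sR]
    | some y => simp [sR]⟩

theorem aeval_sR [DecidableEq κ] (f : Option (Fin n × κ) → ℝ) (P : MvPolynomial (Option (Fin n × κ)) ℤ)
    (hP : ∀ x, P.degreeOf x ≤ d) : MvPolynomial.aeval f P =
      ∑ e : (Fin n → κ → Fin (d + 1)) × Fin (d + 1), ((P.coeff (sR e) : ℤ) : ℝ) *
        (f none ^ (e.2 : ℕ) * ∏ j, ∏ i, f (some (j, i)) ^ (e.1 j i : ℕ)) := by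
  classical
  have h1 : ∀ e : (Fin n → κ → Fin (d + 1)) × Fin (d + 1),
      f none ^ (e.2 : ℕ) * ∏ j, ∏ i, f (some (j, i)) ^ (e.1 j i : ℕ) = ∏ x, f x ^ (sR e x) := by
    intro e
    rw [Fintype.prod_option, Fintype.prod_prod_type]
    simp [sR]
  simp only [h1]
  rw [MvPolynomial.aeval_def, MvPolynomial.eval₂_eq']
  rw [← Finset.sum_image (f := fun s : Option (Fin n × κ) →₀ ℕ => ((P.coeff s : ℤ) : ℝ) * ∏ x, f x ^ (s x))
    (fun a _ b _ hab => sR_inj hab)]
  refine Finset.sum_subset_zero_on_sdiff ?_ ?_ ?_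
  · intro s hs
    rw [Finset.mem_image]
    obtain ⟨e, he⟩ := sR_surj (d := d) s (fun x =>
      Nat.lt_succ_of_le ((MvPolynomial.monomial_le_degreeOf x hs).trans (hP x)))
    exact ⟨e, Finset.mem_univ _, he⟩
  · intro s hs
    rw [Finset.mem_sdiff, MvPolynomial.notMem_support_iff] at hs
    rw [hs.2]
    simp
  · intro s _
    simp

theorem coeff_sR (P : MvPolynomial (Option (Fin n × κ)) ℤ) (hP0 : P ≠ 0) (hP : ∀ x, P.degreeOf x ≤ d) :
    (fun e : (Fin n → κ → Fin (d + 1)) × Fin (d + 1) => P.coeff (sR e)) ≠ 0 := by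
  intro h
  apply hP0
  ext s
  rw [MvPolynomial.coeff_zero]
  by_contra hs
  have hs' : s ∈ P.support := MvPolynomial.mem_support_iff.2 hs
  obtain ⟨e, he⟩ := sR_surj (d := d) s (fun x =>
    Nat.lt_succ_of_le ((MvPolynomial.monomial_le_degreeOf x hs').trans (hP x)))
  have := congrFun h e
  simp only [he, Pi.zero_apply] at this
  exact hs this

/-- the value `π` and the values `e ^ (v_x (q_j))` -/
noncomputable def vale (v : κ → ℝ → ℝ) (q : Fin n → ℚ) (s : Option (Fin n × κ)) : ℝ :=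
  match s with
  | none => Real.pi
  | some z => Real.exp (v z.2 (q z.1))

/-- a monomial in the values -/
theorem mono_vale (v : κ → ℝ → ℝ) (q : Fin n → ℚ) (e : (Fin n → κ → Fin (d + 1)) × Fin (d + 1)) :
    mono (fun _ : Fin n => gt (d := d) v) (fun e : Fin (d + 1) => Real.pi ^ (e : ℕ)) q e =
      vale v q none ^ (e.2 : ℕ) * ∏ j, ∏ i, vale v q (some (j, i)) ^ (e.1 j i : ℕ) := by
  have h1 : ∀ j, gt v (e.1 j) (q j : ℝ) = ∏ i, vale v q (some (j, i)) ^ (e.1 j i : ℕ) := by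
    intro j
    rw [gt, lm, Real.exp_sum]
    refine Finset.prod_congr rfl fun i _ => ?_
    simp only [vale]
    rw [← Real.exp_nat_mul]
  unfold mono
  simp only [h1]
  rw [mul_comm]
  rfl

/-- exceptional tuples -/
def ExcT (d : ℕ) (v : κ → ℝ → ℝ) (a b : Fin n → ℝ) (A B T : ℝ) : Set (Fin n → ℚ) :=
  {q | (∀ j, a j ≤ q j ∧ (q j : ℝ) ≤ b j ∧ ((q j).den : ℝ) ≤ T) ∧
    ∃ P : MvPolynomial (Option (Fin n × κ)) ℤ, P ≠ 0 ∧
    (∀ s, P.degreeOf s ≤ d) ∧ (∀ m, |((P.coeff m : ℤ) : ℝ)| ≤ T ^ A) ∧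
    |MvPolynomial.aeval (vale v q) P| ≤ T ^ (-B)}

end

theorem mainT (κ : Type) [Fintype κ] (n d : ℕ) (hn : 1 ≤ n) (v : κ → ℝ → ℝ) (hv : Grows d v)
    (a b : Fin n → ℝ) (hab : ∀ j, a j < b j) (han : ∀ j x, AnalyticOnNhd ℝ (v x) (Ici (a j))) (A β : ℝ) (hA : 0 ≤ A)
    (hβ : 2 - 2 / (((d : ℝ) + 1) ^ (Fintype.card κ * n + 1) + 1) < β) :
    ∃ B C : ℝ, ∀ T : ℝ, 1 ≤ T → (ExcT d v a b A B T).Finite ∧
      ((ExcT d v a b A B T).ncard : ℝ) ≤ C * T ^ (2 * ((n : ℝ) - 1) + β) := by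
  classical
  have hι : 0 < Fintype.card (κ → Fin (d + 1)) := Fintype.card_pos
  have hcard : (Fintype.card (κ → Fin (d + 1))) ^ n * Fintype.card (Fin (d + 1)) =
      (d + 1) ^ (Fintype.card κ * n + 1) := by
    simp only [Fintype.card_pi, Fintype.card_fin, Finset.prod_const, Finset.card_univ]
    rw [← pow_mul, ← pow_succ]
  have hM0 : (0 : ℝ) < ((d : ℝ) + 1) ^ (Fintype.card κ * n + 1) := by positivity
  have hβ' : 2 * (((Fintype.card (κ → Fin (d + 1))) ^ n * Fintype.card (Fin (d + 1)) : ℕ) : ℝ) /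
      ((((Fintype.card (κ → Fin (d + 1))) ^ n * Fintype.card (Fin (d + 1)) : ℕ) : ℝ) + 1) < β := by
    rw [hcard]
    refine lt_of_le_of_lt (le_of_eq ?_) hβ
    push_cast
    field_simp
    ring
  obtain ⟨B, C, h⟩ := multi_gen hι _ (goodConst_pi d) n hn (fun _ : Fin n => gt (d := d) v) a b hab
    (fun j l t ht => gt_an v l fun x => han j x t ht.1)
    (fun j => gt_ind v hv (a j) (b j) (hab j) (han j)) A β hA hβ'
  refine ⟨B, C, fun T hT => ?_⟩
  obtain ⟨h1, h2⟩ := h T hT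
  have hsub : ExcT d v a b A B T ⊆ ExcM (fun _ : Fin n => gt (d := d) v)
      (fun e : Fin (d + 1) => Real.pi ^ (e : ℕ)) a b A B T := by
    rintro q ⟨hq, P, hP0, hPd, hPc, hPs⟩
    refine ⟨fun j => ⟨⟨(hq j).1, (hq j).2.1⟩, (hq j).2.2⟩, fun e => P.coeff (sR e), coeff_sR P hP0 hPd,
      fun e => hPc _, ?_⟩
    rw [aeval_sR (vale v q) P hPd] at hPs
    simp only [mono_vale v q]
    exact hPs
  refine ⟨h1.subset hsub, ?_⟩
  have h3 := Set.ncard_le_ncard hsub h1
  have h4 : ((ExcT d v a b A B T).ncard : ℝ) ≤ _ := (Nat.cast_le (α := ℝ)).2 h3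
  exact h4.trans h2

end Pool.Agent.TH426.Tw
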