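import Pool.Agent.TH426.Pw.Tower

/-!
# The functions `(y t) ^ (z t)`
-/

set_option autoImplicit false

open Set Polynomial Filter Topology Asymptotics

namespace Pool.Agent.TH426.Tw

variable {k : ℕ}

/-- logarithm of `(y t) ^ (z t)` -/
noncomputable def lx (y z : Fin k → ℝ) (x : Fin k) (t : ℝ) : ℝ := Real.log (y x * t) * (z x * t)

theorem lx_an (y z : Fin k → ℝ) (hy : ∀ x, 0 < y x) (x : Fin k) {t : ℝ} (ht : 0 < t) : AnalyticAt ℝ (lx y z x) t := by
  unfold lx
  have h1 : AnalyticAt ℝ (fun t : ℝ => y x * t) t := analyticAt_const.mul analyticAt_id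
  have h2 : AnalyticAt ℝ (fun t : ℝ => Real.log (y x * t)) t :=
    AnalyticAt.comp (g := Real.log) (f := fun t : ℝ => y x * t) (analyticAt_log (mul_pos (hy x) ht)) h1
  exact h2.mul (analyticAt_const.mul analyticAt_id)

theorem lx_grows (d : ℕ) (y z : Fin k → ℝ) (hy : ∀ x, 0 < y x)
    (hyz : ∀ c : Fin k → ℤ, (∀ x, |c x| ≤ d) → ∑ x, (c x : ℝ) * z x = 0 →
      ∑ x, (c x : ℝ) * (z x * Real.log (y x)) = 0 → c = 0) : Grows d (lx y z) := by
  intro c hc hcd
  set S1 : ℝ := ∑ x, (c x : ℝ) * z x with hS1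
  set S2 : ℝ := ∑ x, (c x : ℝ) * (z x * Real.log (y x)) with hS2
  have hD : ∀ t : ℝ, 0 < t → ∑ x, (c x : ℝ) * lx y z x t = (S1 * Real.log t + S2) * t := by
    intro t ht
    rw [hS1, hS2, Finset.sum_mul, ← Finset.sum_add_distrib, Finset.sum_mul]
    refine Finset.sum_congr rfl fun x _ => ?_
    rw [lx, Real.log_mul (hy x).ne' ht.ne']
    ring
  by_cases h1 : S1 = 0
  · have h2 : S2 ≠ 0 := fun h2 => hc (hyz c hcd h1 h2)
    rcases lt_or_gt_of_ne h2 with hneg | hpos
    · refine ⟨-S2, by linarith, Or.inr ?_⟩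
      filter_upwards [eventually_gt_atTop 0] with t ht
      rw [hD t ht, h1]
      linarith
    · refine ⟨S2, hpos, Or.inl ?_⟩
      filter_upwards [eventually_gt_atTop 0] with t ht
      rw [hD t ht, h1]
      linarith
  · rcases lt_or_gt_of_ne h1 with hneg | hpos
    · refine ⟨1, one_pos, Or.inr ?_⟩
      have hl : Tendsto (fun t : ℝ => -S1 * Real.log t) atTop atTop :=
        Real.tendsto_log_atTop.const_mul_atTop (by linarith)
      filter_upwards [eventually_gt_atTop 0, hl.eventually_ge_atTop (1 + S2)] with t ht ht1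
      rw [hD t ht, ← neg_mul]
      exact mul_le_mul_of_nonneg_right (by linarith) ht.le
    · refine ⟨1, one_pos, Or.inl ?_⟩
      have hl : Tendsto (fun t : ℝ => S1 * Real.log t) atTop atTop :=
        Real.tendsto_log_atTop.const_mul_atTop hpos
      filter_upwards [eventually_gt_atTop 0, hl.eventually_ge_atTop (1 - S2)] with t ht ht1
      rw [hD t ht]
      exact mul_le_mul_of_nonneg_right (by linarith) ht.le

end Pool.Agent.TH426.Tw
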